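import Pool.Agent.Helper96.LC.FIN
import Pool.Agent.Helper96.LC.CNT
import Pool.Agent.Helper40.LC.STEER
import Pool.Agent.Helper24.LC.RAY
import Pool.Agent.Helper73.LC.PATH
import Pool.Agent.Helper92.LC.BLK
import Pool.Agent.Helper58.LC.LIM

set_option autoImplicit false

open Filter

/-- For coprime `p, q` with `q ≥ 2`, `p ≥ 4 q`, the part of the multiplicative Lagrange spectrum
`L^(0)(qX - p)` in `[q / (p - q), 1 / 2]` is the union of a closed set and a countable set. -/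
theorem Pool.Agent.Results.MP_91e6f2_nt.ClosedUpToCountable.result (p q : ℕ)
    (hcop : Nat.Coprime p q) (hq : 2 ≤ q) (hpq : 4 * q ≤ p) :
    ∃ K C : Set ℝ, IsClosed K ∧ C.Countable ∧
      {t : ℝ | ∃ ξ : ℝ, limsup (fun n : ℕ =>
        |ξ * ((p : ℝ) / q) ^ n - round (ξ * ((p : ℝ) / q) ^ n)|) atTop = t} ∩
        Set.Icc ((q : ℝ) / (p - q)) (1 / 2) = K ∪ C := by
  have hS := Pool.Agent.Helper40.LCS.st_STEER
  obtain ⟨⟨K, C, hK, hC, h⟩, -, -, hL⟩ := Pool.Agent.Helper96.LC.fin_of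
    (Pool.Agent.Helper96.LC.st_RAY hS)
    (Pool.Agent.Helper96.LC.st_LIM hS
      (Pool.Agent.Helper96.LC.st_BLK Pool.Agent.Helper96.LC.st_PATH))
    Pool.Agent.Helper96.LC.st_CNT p q hcop hq hpq
  refine ⟨K, C, hK, hC, ?_⟩
  rw [← h]
  ext t
  constructor
  · rintro ⟨h1, h2, _⟩
    exact ⟨h1, h2⟩
  · rintro ⟨h1, h2⟩
    exact ⟨h1, h2, (hL h1).2⟩
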