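import Pool.Agent.Helper96.SB.Twist
import Pool.Agent.Helper96.SB.Zero
import Pool.Agent.Helper96.ML.Assembly
import Pool.Agent.Helper40.LC.STEER
import Pool.Agent.Helper24.LC.RAY

/-!
# Powers and twists by roots of unity in the multiplicative Lagrange spectra

`Spec k P` (`Pool/Agent/Helper96/SB/Main.lean`) is the set `L^(k)(P)` of the problem, for every integer
polynomial `P`.
-/

namespace Pool.Agent.Results.MP_91e6f2_nt.CyclotomicTwists

open Polynomial Filter Pool.Agent.Helper96.SB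

/-- every level in `[c, 1/2]` of the linear polynomial is a level of the twist -/
lemma inter_of_levels (k m d : ℕ) (hm : 1 ≤ m) (hd : 1 ≤ d) (a b : ℤ) (ha : 1 ≤ a) (hab : a < |b|)
    (c : ℝ) (h : ∀ t : ℝ, c ≤ t → t ≤ 1 / 2 → ∃ ξ : ℝ,
      limsup (fun n : ℕ => distZ (ξ * ((b : ℝ) / a) ^ n)) atTop = t) :
    Spec k (((cyclotomic m ℤ).scaleRoots b).comp (C a * X ^ d)) ∩ Set.Ici c =
      Set.Icc c (1 / 2) := by
  have e : ((cyclotomic m ℤ).scaleRoots b).comp (C a * X ^ d) = expand ℤ d (cyc m a b) := by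
    rw [cyc, expand_eq_comp_X_pow, comp_assoc, mul_comp, C_comp, X_comp]
  rw [e, spec_expand k _ hd]
  ext s
  rw [Set.mem_inter_iff, Set.mem_Ici, Set.mem_Icc]
  constructor
  · rintro ⟨⟨g, _, hs⟩, hcs⟩
    refine ⟨hcs, ?_⟩
    rw [hs]
    apply limsup_le_of_le
    · exact IsBoundedUnder.isCoboundedUnder_le (isBoundedUnder_of ⟨0, fun n => distZ_nonneg _⟩)
    · exact Eventually.of_forall (fun n => distZ_le _)
  · rintro ⟨hcs, hs2⟩
    refine ⟨?_, hcs⟩
    obtain ⟨ξ, hlim⟩ := h s hcs hs2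
    refine spec_cyc k (by omega) a b ha hab ⟨Polynomial.C ξ, ?_, ?_⟩
    · rw [Polynomial.natDegree_C]
      exact Nat.zero_le k
    · rw [← hlim]
      simp only [Polynomial.eval_C]

/-- (1) `L^(k)(P(X^d)) = L^(k)(P)`. (2) If `P ≠ 0` vanishes at `α w` for every root `α` of `Q` of
modulus `> 1` and every primitive `m`-th root of unity `w`, then `L^(k)(Q) ⊆ L^(k)(P)`. (3) The same if
`P ≠ 0` vanishes at all the `α ^ d`. (4) For coprime integers `a ≥ 2` and `b`, `|b| > a`, there is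
`c < 1/2` such that for all `k ≥ 0` and all `m, d ≥ 1` the part of `L^(k)(b ^ φ(m) Φ_m (a X^d / b))` in
`[c, ∞)` is the interval `[c, 1/2]`; if `|b| ≥ 4 a`, then `c = max (1 / (2 a)) (a / (|b| - a))`.
(5) If `P` is irreducible, not constant and not monic (its leading coefficient is not `± 1`), then `0` is
the only element `t` of `L^(k)(P)` with `l t < 1`, `l` the sum of the absolute values of the coefficients
of `P ^ (k + 1)`. -/
theorem result :
    (∀ (P : ℤ[X]) (k d : ℕ), 1 ≤ d → Spec k (expand ℤ d P) = Spec k P) ∧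
    (∀ (Q P : ℤ[X]) (k m : ℕ), 1 ≤ m → P ≠ 0 →
      (∀ α ∈ bigRoots Q, ∀ w : ℂ, IsPrimitiveRoot w m →
        (P.map (Int.castRingHom ℂ)).eval (α * w) = 0) → Spec k Q ⊆ Spec k P) ∧
    (∀ (Q P : ℤ[X]) (k d : ℕ), 1 ≤ d → P ≠ 0 →
      (∀ α ∈ bigRoots Q, (P.map (Int.castRingHom ℂ)).eval (α ^ d) = 0) → Spec k Q ⊆ Spec k P) ∧
    (∀ a b : ℤ, 2 ≤ a → a < |b| → IsCoprime a b → ∃ c : ℝ, c < 1 / 2 ∧
      (4 * a ≤ |b| → c = max (1 / (2 * (a : ℝ))) ((a : ℝ) / (|(b : ℝ)| - a))) ∧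
      ∀ k m d : ℕ, 1 ≤ m → 1 ≤ d →
        Spec k (((cyclotomic m ℤ).scaleRoots b).comp (C a * X ^ d)) ∩ Set.Ici c =
          Set.Icc c (1 / 2)) ∧
    ∀ P : ℤ[X], Irreducible P → P.natDegree ≠ 0 → ¬ IsUnit P.leadingCoeff → ∀ (k : ℕ) (t : ℝ),
      t ∈ Spec k P →
      ((∑ i ∈ Finset.range ((P ^ (k + 1)).natDegree + 1), |(P ^ (k + 1)).coeff i| : ℤ) : ℝ) * t < 1 →
        t = 0 := by
  refine ⟨fun P k d hd => spec_expand k P hd, fun Q P k m hm hP h => spec_twist k (by omega) Q P hP h,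
    ?_, ?_, fun P hP hd hl k t ht h => zero_isolated P hP hd hl k t ht h⟩
  · intro Q P k d hd hP h
    rw [← spec_expand k P hd]
    refine spec_twist k one_ne_zero Q _ (fun h0 => hP ((expand_eq_zero (by omega)).1 h0)) ?_
    intro α hα w hw
    rw [IsPrimitiveRoot.one_right_iff.1 hw, mul_one, Polynomial.map_expand, expand_eval]
    exact h α hα
  intro a b ha hab hcop
  obtain ⟨A, rfl⟩ := Int.eq_ofNat_of_zero_le (by omega : 0 ≤ a)
  set B : ℕ := b.natAbs with hB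
  have hBabs : (B : ℤ) = |b| := by rw [hB, Int.natCast_natAbs]
  have hBR : |(b : ℝ)| = B := by
    rw [← Int.cast_abs, ← hBabs]
    push_cast
    rfl
  have hA2 : 2 ≤ A := by exact_mod_cast ha
  have hAB : A < B := by
    rw [← hBabs] at hab
    exact_mod_cast hab
  have hco : A.Coprime B := by
    have := Int.isCoprime_iff_gcd_eq_one.mp hcop
    rw [Nat.coprime_iff_gcd_eq_one, hB]
    exact this
  have hsign : ∀ (x : ℝ) (n : ℕ), distZ (x * ((b : ℝ) / ((A : ℤ) : ℝ)) ^ n)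
      = distZ (x * ((B : ℝ) / (A : ℝ)) ^ n) := by
    intro x n
    rcases abs_choice b with h | h
    · have hb : (b : ℝ) = (B : ℝ) := by
        have h1 : b = (B : ℤ) := by rw [hBabs, h]
        rw [h1]; push_cast; rfl
      rw [hb]; push_cast; rfl
    · have hb : (b : ℝ) = -(B : ℝ) := by
        have h1 : b = -(B : ℤ) := by rw [hBabs, h]; ring
        rw [h1]; push_cast; rfl
      rw [hb, neg_div, distZ_neg_pow]; push_cast; rfl
  have fin : ∀ c : ℝ, (∀ t : ℝ, c ≤ t → t ≤ 1 / 2 → ∃ ξ : ℝ,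
      limsup (fun n : ℕ => distZ (ξ * ((B : ℝ) / A) ^ n)) atTop = t) → ∀ k m d : ℕ, 1 ≤ m → 1 ≤ d →
        Spec k (((cyclotomic m ℤ).scaleRoots b).comp (C (A : ℤ) * X ^ d)) ∩ Set.Ici c =
          Set.Icc c (1 / 2) := by
    intro c hc k m d hm hd
    refine inter_of_levels k m d hm hd _ b (by omega) hab c fun t h1 h2 => ?_
    obtain ⟨ξ, hξ⟩ := hc t h1 h2
    refine ⟨ξ, ?_⟩
    rw [← hξ]
    congr 1
    funext n
    exact hsign ξ n
  by_cases h4 : 4 * (A : ℤ) ≤ |b|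
  · have h4' : 4 * A ≤ B := by
      rw [← hBabs] at h4
      exact_mod_cast h4
    have hA0 : (2 : ℝ) ≤ A := by exact_mod_cast hA2
    have h4R : 4 * (A : ℝ) ≤ B := by exact_mod_cast h4'
    have hBA : (0 : ℝ) < (B : ℝ) - A := by linarith
    refine ⟨max (1 / (2 * (A : ℝ))) ((A : ℝ) / ((B : ℝ) - A)), ?_, fun _ => ?_, ?_⟩
    · refine max_lt ?_ ?_
      · rw [div_lt_div_iff₀ (by positivity) (by norm_num)]
        linarith
      · rw [div_lt_div_iff₀ hBA (by norm_num)]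
        linarith
    · rw [hBR]
      push_cast
      rfl
    · refine fin _ fun t h1 h2 => ?_
      have ha' : 1 / (2 * (A : ℝ)) ≤ t := (le_max_left _ _).trans h1
      have hb' : (A : ℝ) / ((B : ℝ) - A) ≤ t := (le_max_right _ _).trans h1
      have ht1 : 1 ≤ 2 * (A : ℝ) * t := by
        rw [div_le_iff₀ (by positivity)] at ha'
        nlinarith
      have ht2 : (A : ℝ) ≤ t * ((B : ℝ) - A) := by
        rwa [div_le_iff₀ hBA] at hb'
      exact Pool.Agent.Helper96.LC.st_RAY Pool.Agent.Helper40.LCS.st_STEER B A t (by omega)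
        hco.symm h4' ht1 h2 ht2
  · obtain ⟨τ, ρ, c, hP⟩ := Pool.Agent.Helper96.ML.exists_par hA2 hco hAB
    refine ⟨c, hP.lt_half, fun h => absurd h h4, fin c fun t h1 h2 => ?_⟩
    obtain ⟨ξ, _, hlim⟩ := Pool.Agent.Helper96.ML.exists_limsup hA2 hco hAB hP h1 h2
    exact ⟨ξ, hlim⟩

end Pool.Agent.Results.MP_91e6f2_nt.CyclotomicTwists
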