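import Pool.Agent.Helper40.LC.STEER
import Pool.Agent.Helper24.LC.RAY

set_option linter.all false

open Filter

/-- Hall's ray for the multiplicative Lagrange spectrum of `P = qX - p`: for coprime `p, q` with `q ≥ 2`,
`p ≥ 4q`, the set of all values `limsup ‖ξ (p/q)^n‖`, `ξ` real (with `‖x‖ = |x - round x|`), is
`N ∪ M ∪ [m, 1/2]`, where `m = max (1/(2q)) (q/(p - q))`, `N ⊆ [0, 1/(2q))` is a Lebesgue null set and
`M ⊆ [1/(2q), m)`. For `p ≥ 2q² + q` one has `m = 1/(2q)`, so `M` is empty and the interval is the whole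
ray `[1/(2q), 1/2]`. -/
theorem Pool.Agent.Results.MP_91e6f2_nt.HallRay.result (p q : ℕ) (hcop : Nat.Coprime p q) (hq : 2 ≤ q)
    (hpq : 4 * q ≤ p) :
    ∃ N M : Set ℝ, MeasureTheory.volume N = 0 ∧ N ⊆ Set.Ico 0 (1 / (2 * q)) ∧
      M ⊆ Set.Ico (1 / (2 * q)) (max (1 / (2 * q)) (q / (p - q))) ∧
      {t : ℝ | ∃ ξ : ℝ, limsup (fun n : ℕ =>
        |ξ * ((p : ℝ) / q) ^ n - round (ξ * ((p : ℝ) / q) ^ n)|) atTop = t} =
      N ∪ M ∪ Set.Icc (max (1 / (2 * q)) (q / (p - q))) (1 / 2) := by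
  have hq0 : (0 : ℝ) < q := by positivity
  have hq2 : (2 : ℝ) ≤ q := by exact_mod_cast hq
  have hpqr : 4 * (q : ℝ) ≤ p := by exact_mod_cast hpq
  have hqpr : (0 : ℝ) < (p : ℝ) - q := by nlinarith
  have hqp : q < p := by
    have : (q : ℝ) < p := by linarith
    exact_mod_cast this
  set L : Set ℝ := {t : ℝ | ∃ ξ : ℝ, limsup (fun n : ℕ =>
        |ξ * ((p : ℝ) / q) ^ n - round (ξ * ((p : ℝ) / q) ^ n)|) atTop = t} with hL
  set m : ℝ := max (1 / (2 * (q : ℝ))) ((q : ℝ) / ((p : ℝ) - q)) with hm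
  have hle : ∀ t ∈ L, t ≤ 1 / 2 := by
    rintro t ⟨ξ, hξ⟩
    rw [← hξ]
    exact limsup_le_of_le (isCoboundedUnder_le_of_le _ (x := 0) fun n => abs_nonneg _)
      (Eventually.of_forall fun n => abs_sub_round _)
  have hge : ∀ t ∈ L, 0 ≤ t := by
    rintro t ⟨ξ, hξ⟩
    rw [← hξ]
    exact le_limsup_of_frequently_le (Frequently.of_forall fun n => abs_nonneg _)
      (isBoundedUnder_of ⟨1 / 2, fun n => abs_sub_round _⟩)
  refine ⟨L ∩ Set.Iio (1 / (2 * q)), L ∩ Set.Ico (1 / (2 * q)) m, ?_, ?_, ?_, ?_⟩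
  · refine MeasureTheory.measure_mono_null ?_
      (Pool.Agent.Helper44.Lag.null_below p q (by omega) hqp)
    rintro t ⟨⟨ξ, hξ⟩, hlt⟩
    exact ⟨hlt, ξ, hξ⟩
  · rintro t ⟨h1, h2⟩
    exact ⟨hge t h1, h2⟩
  · exact Set.inter_subset_right
  · ext t
    constructor
    · intro h
      by_cases h2 : t < 1 / (2 * q)
      · exact Or.inl (Or.inl ⟨h, h2⟩)
      · by_cases h3 : t < m
        · exact Or.inl (Or.inr ⟨h, not_lt.1 h2, h3⟩)
        · exact Or.inr ⟨not_lt.1 h3, hle t h⟩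
    · rintro ((⟨h1, _⟩ | ⟨h1, _⟩) | ⟨h1, h2⟩)
      · exact h1
      · exact h1
      · have ha : 1 / (2 * (q : ℝ)) ≤ t := (le_max_left _ _).trans h1
        have hb : (q : ℝ) / ((p : ℝ) - q) ≤ t := (le_max_right _ _).trans h1
        have ht1 : 1 ≤ 2 * q * t := by
          rw [div_le_iff₀ (by positivity)] at ha
          nlinarith
        have ht2 : (q : ℝ) ≤ t * (p - q) := by
          rwa [div_le_iff₀ hqpr] at hb
        obtain ⟨ξ, hξ⟩ := Pool.Agent.Helper96.LC.st_RAY Pool.Agent.Helper40.LCS.st_STEER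
          p q t (by omega) hcop hpq ht1 h2 ht2
        exact ⟨ξ, hξ⟩
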