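import Pool.Agent.Helper96.ML.Assembly

/-!
# The top of the multiplicative Lagrange spectrum of every non-monic linear polynomial

For every linear non-monic `P = a X - b` (`a ≥ 2`, `gcd (a, b) = 1`, root `b / a` of modulus `> 1`)
there is `c < 1 / 2` such that the part of the spectrum above `c` is the whole interval
`[c, 1 / 2]`, for every degree bound `k`.
-/

namespace Pool.Agent.Results.MP_91e6f2_nt.TopIntervalLinear

open Filter

/-- distance to the nearest integer -/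
noncomputable def distZ (x : ℝ) : ℝ := |x - round x|

/-- the spectrum `L^(k)` of a linear polynomial with root `α` (`|α| > 1`): all the values
`limsup ‖g(n) α ^ n‖`, `g` a real polynomial of degree at most `k` -/
def Spec (k : ℕ) (α : ℝ) : Set ℝ :=
  {s | ∃ g : Polynomial ℝ, g.natDegree ≤ k ∧
    s = limsup (fun n : ℕ => distZ (g.eval (n : ℝ) * α ^ n)) atTop}

lemma distZ_nonneg (x : ℝ) : 0 ≤ distZ x := abs_nonneg _

lemma distZ_le (x : ℝ) : distZ x ≤ 1 / 2 := abs_sub_round x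

lemma distZ_neg (x : ℝ) : distZ (-x) = distZ x := by
  have key : ∀ y : ℝ, distZ (-y) ≤ distZ y := by
    intro y
    have h := round_le (-y) (-round y)
    have e : -y - ((-round y : ℤ) : ℝ) = -(y - round y) := by push_cast; ring
    rw [e, abs_neg] at h
    exact h
  apply le_antisymm (key x)
  have := key (-x)
  rwa [neg_neg] at this

lemma distZ_neg_pow (x β : ℝ) (n : ℕ) : distZ (x * (-β) ^ n) = distZ (x * β ^ n) := by
  rcases Nat.even_or_odd n with h | h
  · rw [h.neg_pow]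
  · rw [h.neg_pow, mul_neg, distZ_neg]

theorem result (a b : ℤ) (ha : 2 ≤ a) (hab : a < |b|) (hcop : IsCoprime a b) :
    ∃ c : ℝ, c < 1 / 2 ∧
      (∀ t : ℝ, c ≤ t → t ≤ 1 / 2 → ∃ ξ : ℝ,
        (∀ n : ℕ, distZ (ξ * ((b : ℝ) / a) ^ n) ≤ t) ∧
          limsup (fun n : ℕ => distZ (ξ * ((b : ℝ) / a) ^ n)) atTop = t) ∧
      ∀ k : ℕ, Spec k ((b : ℝ) / a) ∩ Set.Ici c = Set.Icc c (1 / 2) := by
  obtain ⟨A, rfl⟩ := Int.eq_ofNat_of_zero_le (by omega : 0 ≤ a)
  set B : ℕ := b.natAbs with hB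
  have hBabs : (B : ℤ) = |b| := by rw [hB, Int.natCast_natAbs]
  have hA2 : 2 ≤ A := by exact_mod_cast ha
  have hAB : A < B := by
    rw [← hBabs] at hab
    exact_mod_cast hab
  have hco : A.Coprime B := by
    have := Int.isCoprime_iff_gcd_eq_one.mp hcop
    rw [Nat.coprime_iff_gcd_eq_one, hB]
    exact this
  obtain ⟨τ, ρ, c, hP⟩ := Pool.Agent.Helper96.ML.exists_par hA2 hco hAB
  have hsign : ∀ (x : ℝ) (n : ℕ), distZ (x * ((b : ℝ) / ((A : ℤ) : ℝ)) ^ n)
      = distZ (x * ((B : ℝ) / (A : ℝ)) ^ n) := by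
    intro x n
    rcases abs_choice b with h | h
    · have hb : (b : ℝ) = (B : ℝ) := by
        have h1 : b = (B : ℤ) := by rw [hBabs, h]
        rw [h1]; push_cast; rfl
      rw [hb]; push_cast; rfl
    · have hb : (b : ℝ) = -(B : ℝ) := by
        have h1 : b = -(B : ℤ) := by rw [hBabs, h]; ring
        rw [h1]; push_cast; rfl
      rw [hb, neg_div, distZ_neg_pow]; push_cast; rfl
  have hmain : ∀ t : ℝ, c ≤ t → t ≤ 1 / 2 → ∃ ξ : ℝ,
      (∀ n : ℕ, distZ (ξ * ((b : ℝ) / ((A : ℤ) : ℝ)) ^ n) ≤ t) ∧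
        limsup (fun n : ℕ => distZ (ξ * ((b : ℝ) / ((A : ℤ) : ℝ)) ^ n)) atTop = t := by
    intro t h1 h2
    obtain ⟨ξ, hξ, hlim⟩ := Pool.Agent.Helper96.ML.exists_limsup hA2 hco hAB hP h1 h2
    refine ⟨ξ, fun n => ?_, ?_⟩
    · rw [hsign]
      exact hξ n
    · have e : (fun n : ℕ => distZ (ξ * ((b : ℝ) / ((A : ℤ) : ℝ)) ^ n))
          = fun n : ℕ => |ξ * ((B : ℝ) / A) ^ n - round (ξ * ((B : ℝ) / A) ^ n)| := by
        funext n
        rw [hsign]
        rfl
      rw [e]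
      exact hlim
  refine ⟨c, hP.lt_half, hmain, fun k => ?_⟩
  ext s
  rw [Set.mem_inter_iff, Set.mem_Ici, Set.mem_Icc]
  constructor
  · rintro ⟨⟨g, _, hs⟩, hcs⟩
    refine ⟨hcs, ?_⟩
    rw [hs]
    apply limsup_le_of_le
    · exact IsBoundedUnder.isCoboundedUnder_le (isBoundedUnder_of ⟨0, fun n => distZ_nonneg _⟩)
    · exact Eventually.of_forall (fun n => distZ_le _)
  · rintro ⟨hcs, hs2⟩
    refine ⟨?_, hcs⟩
    obtain ⟨ξ, _, hlim⟩ := hmain s hcs hs2
    refine ⟨Polynomial.C ξ, ?_, ?_⟩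
    · rw [Polynomial.natDegree_C]
      exact Nat.zero_le k
    · rw [← hlim]
      simp only [Polynomial.eval_C]

end Pool.Agent.Results.MP_91e6f2_nt.TopIntervalLinear
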